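import Mathlib
import Pool.Agent.Q293.ZT.Grow

set_option autoImplicit false

open Finset

namespace Pool.Agent.Results.MP_b57ceb_co.MixedEquality

/-- `H` is a tree with `m + 1` vertices in the complete graph on `Fin n`. -/
def IsTreeCopy {n : ℕ} (m : ℕ) (H : (⊤ : SimpleGraph (Fin n)).Subgraph) : Prop :=
  H.coe.IsTree ∧ H.verts.ncard = m + 1

/-- The `n` such that every `k`-colouring of the edges of `K_n` has a monochromatic tree with
`m + 1` vertices. -/
def MonoSet (m k : ℕ) : Set ℕ :=
  {n | ∀ c : Sym2 (Fin n) → Fin k, ∃ H : (⊤ : SimpleGraph (Fin n)).Subgraph,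
    IsTreeCopy m H ∧ ∃ i : Fin k, ∀ e ∈ H.edgeSet, c e = i}

/-- The `n` such that every colouring of the edges of `K_n` by `Z_m` and a further colour (`none`)
has a tree with `m + 1` vertices all of whose edges have the further colour, or one with all colours
in `Z_m` and colour sum zero. -/
def MixedSet (m : ℕ) : Set ℕ :=
  {n | ∀ c : Sym2 (Fin n) → Option (ZMod m),
    (∃ H : (⊤ : SimpleGraph (Fin n)).Subgraph, IsTreeCopy m H ∧ ∀ e ∈ H.edgeSet, c e = none) ∨
    (∃ H : (⊤ : SimpleGraph (Fin n)).Subgraph, IsTreeCopy m H ∧ (∀ e ∈ H.edgeSet, c e ≠ none) ∧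
      ∑ᶠ e ∈ H.edgeSet, (c e).getD 0 = 0)}

open Pool.Agent.Q293.ZT

/-- the second alternative -/
def Good {n : ℕ} (m : ℕ) (c : Sym2 (Fin n) → Option (ZMod m)) : Prop :=
  ∃ H : (⊤ : SimpleGraph (Fin n)).Subgraph, IsTreeCopy m H ∧ (∀ e ∈ H.edgeSet, c e ≠ none) ∧
      ∑ᶠ e ∈ H.edgeSet, (c e).getD 0 = 0

lemma tree_of {n : ℕ} {V : Type} [DecidableEq V] (i : V → Fin n) (hi : Function.Injective i)
    (H : (⊤ : SimpleGraph (Fin n)).Subgraph) (W : Finset V) (k : ℕ)
    (h1 : H.verts = i '' (W : Set V)) (h2 : H.Connected) (h3 : W.card = k + 1)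
    (h4 : H.edgeSet.ncard = k) : IsTreeCopy k H := by
  have hc : (W.image i).card = k + 1 := by rw [Finset.card_image_of_injective _ hi, h3]
  refine ⟨Pool.Agent.S10353.isTree_of H h2 (W.image i) (by rw [h1, Finset.coe_image]) k hc h4, ?_⟩
  rw [h1, ← Finset.coe_image, Set.ncard_coe_finset, hc]

lemma good_of_GT {n m : ℕ} (c : Sym2 (Fin n) → Option (ZMod m)) {V : Type} [DecidableEq V]
    (i : V → Fin n) (hi : Function.Injective i) (adj : V → V → Prop)
    (hadj : ∀ u v, adj u v → c s(i u, i v) ≠ none) (W : Finset V)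
    (h : GT adj (fun u v => (c s(i u, i v)).getD 0) W m 0) : Good m c := by
  obtain ⟨H, h1, h2, h3, -, h5, h6, h7⟩ := GT.to_subgraph i hi (fun e => (c e).getD 0)
    (fun u v => rfl) W m 0 h
  refine ⟨H, tree_of i hi H W m h1 h2 h3 h5, fun e he => ?_, h7⟩
  obtain ⟨u, v, huv, rfl⟩ := h6 e he
  exact hadj u v huv

lemma bip {n m : ℕ} [NeZero m] (c : Sym2 (Fin n) → Option (ZMod m)) {V : Type} [Fintype V]
    [DecidableEq V] (i : V → Fin n) (hi : Function.Injective i) (side : V → Bool)
    (hV : Fintype.card V = 2 * m)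
    (hside : ∀ u v, side u ≠ side v → c s(i u, i v) ≠ none)
    (hodd : ∃ u, Odd (opp side u).card) : Good m c := by
  by_contra hcon
  obtain ⟨u, hu⟩ := hodd
  obtain ⟨v, hv⟩ := Finset.card_pos.1 hu.pos
  obtain ⟨a, b, -, h⟩ := no_tree side (fun u v => (c s(i u, i v)).getD 0) m hV (Nat.card_zmod m)
    (fun x y => by rw [Sym2.eq_swap]) (fun W hW => hcon
      (good_of_GT c i hi (fun u v => side u ≠ side v) hside W (GT.of_tr hW fun _ _ h => h)))
    ⟨u, v, hv⟩
  have := (h u).2.1
  rw [Nat.odd_iff] at hu
  omega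

open Classical in
lemma mixed (m : ℕ) (hm : 1 ≤ m) : (if Even m then 2 * m + 1 else 2 * m) ∈ MixedSet m := by
  have : NeZero m := ⟨by omega⟩
  obtain ⟨n, hn⟩ : ∃ n, n = if Even m then 2 * m + 1 else 2 * m := ⟨_, rfl⟩
  rw [← hn]
  intro c
  by_cases hinf : ∃ H : (⊤ : SimpleGraph (Fin n)).Subgraph, IsTreeCopy m H ∧
      ∀ e ∈ H.edgeSet, c e = none
  · exact Or.inl hinf
  refine Or.inr ?_
  change Good m c
  let Γ : SimpleGraph (Fin n) :=
    { Adj := fun u v => u ≠ v ∧ c s(u, v) = none
      symm := ⟨fun u v h => ⟨h.1.symm, by rw [Sym2.eq_swap]; exact h.2⟩⟩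
      loopless := ⟨fun u h => h.1 rfl⟩ }
  have hcomp : ∀ v, (univ.filter fun u => Γ.Reachable v u).card ≤ m := by
    intro v
    by_contra hcon
    obtain ⟨W, hW, -, hWc⟩ := grow (G := ZMod m) Γ v m (univ.filter fun u => Γ.Reachable v u)
      (fun u hu => (mem_filter.1 hu).2) (by omega)
    obtain ⟨H, h1, h2, h3, -, h5, h6, -⟩ := GT.to_subgraph (fun v : Fin n => v)
      (fun _ _ h => h) (fun _ => (0 : ZMod m)) (fun u v => rfl) W m 0 hW
    apply hinf
    refine ⟨H, tree_of (fun v : Fin n => v) (fun _ _ h => h) H W m h1 h2 h3 h5, fun e he => ?_⟩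
    obtain ⟨u, v, huv, rfl⟩ := h6 e he
    exact huv.2
  -- edges leaving a component
  have hleave : ∀ w u v, Γ.Reachable w u → ¬ Γ.Reachable w v → c s(u, v) ≠ none := by
    intro w u v h1 h2 h3
    have huv : u ≠ v := fun h => h2 (h ▸ h1)
    exact h2 (h1.trans (SimpleGraph.Adj.reachable (G := Γ) ⟨huv, h3⟩))
  have hside : ∀ w u v, decide (Γ.Reachable w u) ≠ decide (Γ.Reachable w v) →
      c s(u, v) ≠ none := by
    intro w u v h
    by_cases h1 : Γ.Reachable w u
    · by_cases h2 : Γ.Reachable w v
      · simp [h1, h2] at h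
      · exact hleave w u v h1 h2
    · by_cases h2 : Γ.Reachable w v
      · rw [Sym2.eq_swap]; exact hleave w v u h2 h1
      · simp [h1, h2] at h
  by_cases hme : Even m
  · -- `n = 2 m + 1`
    have hn' : n = 2 * m + 1 := by rw [hn, if_pos hme]
    let w : Fin n := ⟨0, by omega⟩
    set X := univ.filter fun u => Γ.Reachable w u with hX
    have hXm : X.card ≤ m := hcomp w
    have hwX : w ∈ X := by simp [hX]
    have hXY : X.card + (univ.filter fun u => ¬ Γ.Reachable w u).card = n := by
      rw [hX, Finset.card_filter_add_card_filter_not, card_univ, Fintype.card_fin]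
    -- the vertex to be removed
    have key : ∀ d : Fin n, (∃ u, u ≠ d ∧ Γ.Reachable w u) →
        Odd ((univ.filter fun u => ¬ Γ.Reachable w u).erase d).card → Good m c := by
      rintro d ⟨u0, hu0, hu1⟩ hodd
      refine bip c (V := {v : Fin n // v ≠ d}) Subtype.val Subtype.val_injective
        (fun v => decide (Γ.Reachable w v.1)) ?_ (fun u v h => hside w u.1 v.1 h) ⟨⟨u0, hu0⟩, ?_⟩
      · have h1 := Fintype.card_subtype_compl (fun v : Fin n => v = d)
        rw [Fintype.card_subtype_eq, Fintype.card_fin] at h1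
        simp only [ne_eq]
        rw [h1]; omega
      · have h1 : (opp (fun v : {v : Fin n // v ≠ d} => decide (Γ.Reachable w v.1))
            ⟨u0, hu0⟩).card = ((univ.filter fun u => ¬ Γ.Reachable w u).erase d).card := by
          refine Finset.card_bij (fun v _ => v.1) ?_ ?_ ?_
          · intro v hv
            rw [mem_opp] at hv
            rw [Finset.mem_erase, mem_filter]
            refine ⟨v.2, mem_univ _, fun h => hv ?_⟩
            simp [h, hu1]
          · intro v _ v' _ h
            exact Subtype.ext h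
          · intro v hv
            rw [Finset.mem_erase, mem_filter] at hv
            refine ⟨⟨v, hv.1⟩, ?_, rfl⟩
            rw [mem_opp]
            simp [hu1, hv.2.2]
        rw [h1]
        exact hodd
    rcases Nat.even_or_odd X.card with hXe | hXo
    · -- remove a vertex of `X`
      have h2 : 1 < X.card := by
        have : 0 < X.card := Finset.card_pos.2 ⟨w, hwX⟩
        rcases hXe with ⟨r, hr⟩
        omega
      obtain ⟨u, hu, huw⟩ := Finset.exists_mem_ne h2 w
      refine key w ⟨u, huw, (mem_filter.1 hu).2⟩ ?_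
      rw [Finset.erase_eq_of_notMem (by
        rw [mem_filter]; rintro ⟨-, h⟩; exact h (SimpleGraph.Reachable.refl _))]
      rw [Nat.odd_iff]
      rw [Nat.even_iff] at hXe
      omega
    · -- remove a vertex outside of `X`
      have h2 : 0 < (univ.filter fun u => ¬ Γ.Reachable w u).card := by omega
      obtain ⟨d, hd⟩ := Finset.card_pos.1 h2
      refine key d ⟨w, fun h => (mem_filter.1 hd).2 (h ▸ SimpleGraph.Reachable.refl _),
        SimpleGraph.Reachable.refl _⟩ ?_
      rw [Finset.card_erase_of_mem hd, Nat.odd_iff]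
      rw [Nat.odd_iff] at hXo
      omega
  · -- `n = 2 m`, `m` odd
    have hn' : n = 2 * m := by rw [hn, if_neg hme]
    rw [Nat.not_even_iff_odd, Nat.odd_iff] at hme
    by_cases hoddc : ∃ w : Fin n, Odd (univ.filter fun u => Γ.Reachable w u).card
    · obtain ⟨w, hw⟩ := hoddc
      refine bip c (V := Fin n) (fun v => v) (fun _ _ h => h)
        (fun v => decide (Γ.Reachable w v)) (by rw [Fintype.card_fin, hn'])
        (fun u v h => hside w u v h) ⟨w, ?_⟩
      have h1 : opp (fun v => decide (Γ.Reachable w v)) w =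
          univ.filter fun u => ¬ Γ.Reachable w u := by
        ext v
        rw [mem_opp, mem_filter]
        simp
      have h2 : (univ.filter fun u => Γ.Reachable w u).card +
          (univ.filter fun u => ¬ Γ.Reachable w u).card = n := by
        rw [Finset.card_filter_add_card_filter_not, card_univ, Fintype.card_fin]
      rw [h1, Nat.odd_iff]
      rw [Nat.odd_iff] at hw
      omega
    · push Not at hoddc
      have heven : ∀ w, (univ.filter fun u => Γ.Reachable w u).card + 1 ≤ m := by
        intro w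
        have h1 := hcomp w
        have h2 := hoddc w
        rw [Nat.not_odd_iff_even, Nat.even_iff] at h2
        omega
      let w0 : Fin n := ⟨0, by omega⟩
      have hex1 : ∃ w1, ¬ Γ.Reachable w0 w1 := by
        by_contra hcon
        push Not at hcon
        have h1 := heven w0
        rw [Finset.filter_true_of_mem (fun v _ => hcon v), card_univ, Fintype.card_fin] at h1
        omega
      obtain ⟨w1, hw1⟩ := hex1
      have hex2 : ∃ w2, ¬ Γ.Reachable w0 w2 ∧ ¬ Γ.Reachable w1 w2 := by
        by_contra hcon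
        push Not at hcon
        have h1 := heven w0
        have h2 := heven w1
        have h3 : (univ : Finset (Fin n)) ⊆ (univ.filter fun u => Γ.Reachable w0 u) ∪
            (univ.filter fun u => Γ.Reachable w1 u) := by
          intro v _
          rw [mem_union, mem_filter, mem_filter]
          by_cases h : Γ.Reachable w0 v
          · exact Or.inl ⟨mem_univ _, h⟩
          · exact Or.inr ⟨mem_univ _, hcon v h⟩
        have h4 := (Finset.card_le_card h3).trans (Finset.card_union_le _ _)
        rw [card_univ, Fintype.card_fin] at h4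
        omega
      obtain ⟨w2, hw20, hw21⟩ := hex2
      let part : Fin n → Fin 3 := fun v =>
        if Γ.Reachable w0 v then 0 else if Γ.Reachable w1 v then 1 else 2
      have hpart : ∀ u v, part u ≠ part v → c s(u, v) ≠ none := by
        intro u v h h'
        by_cases huv : u = v
        · exact h (by rw [huv])
        have hr : Γ.Reachable u v := SimpleGraph.Adj.reachable (G := Γ) ⟨huv, h'⟩
        have h0 : Γ.Reachable w0 u ↔ Γ.Reachable w0 v :=
          ⟨fun h => h.trans hr, fun h => h.trans hr.symm⟩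
        have h1 : Γ.Reachable w1 u ↔ Γ.Reachable w1 v :=
          ⟨fun h => h.trans hr, fun h => h.trans hr.symm⟩
        apply h
        simp only [part, h0, h1]
      obtain ⟨W, hW⟩ := tri part (fun u v => (c s(u, v)).getD 0) m
        (by rw [Fintype.card_fin, hn']) (Nat.card_zmod m) (fun x y => by rw [Sym2.eq_swap])
        (by
          intro i
          fin_cases i
          · exact ⟨w0, by simp [part]⟩
          · exact ⟨w1, by simp [part, hw1]⟩
          · exact ⟨w2, by simp [part, hw20, hw21]⟩)
      exact good_of_GT c (fun v : Fin n => v) (fun _ _ h => h) _ hpart W hW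

/-- the colour of an edge between two of four classes -/
def f (a b : Fin 4) : Fin 3 :=
  (![![0, 0, 1, 2], ![0, 0, 2, 1], ![1, 2, 0, 0], ![2, 1, 0, 0]] : Fin 4 → Fin 4 → Fin 3) a b

/-- the partner of a class in a colour -/
def sg (i : Fin 3) (a : Fin 4) : Fin 4 :=
  (![![1, 0, 3, 2], ![2, 3, 0, 1], ![3, 2, 1, 0]] : Fin 3 → Fin 4 → Fin 4) i a

lemma f_symm : ∀ a b, f a b = f b a := by decide
lemma f_sg : ∀ a b, b = a ∨ b = sg (f a b) a := by decide
lemma sg_sg : ∀ i a, sg i (sg i a) = a := by decide
lemma sg_ne : ∀ i a, sg i a ≠ a := by decide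

/-- the class of a vertex -/
def cl {n : ℕ} (v : Fin n) : Fin 4 := ⟨v.1 % 4, Nat.mod_lt _ (by norm_num)⟩

/-- the colouring without monochromatic trees -/
def col3 (n : ℕ) : Sym2 (Fin n) → Fin 3 :=
  Sym2.lift ⟨fun u v => f (cl u) (cl v), fun u v => f_symm _ _⟩

lemma two_classes (m n : ℕ) (hn : n < if Even m then 2 * m + 1 else 2 * m) (p q : Fin 4)
    (hpq : p < q) (S : Set (Fin n)) (hS : ∀ v ∈ S, cl v = p ∨ cl v = q) : S.ncard ≤ m := by
  have hb : ∀ v ∈ S, 2 * (v.1 / 4) + (if v.1 % 4 = q.1 then 1 else 0) < m := by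
    intro v hv
    have h1 := hS v hv
    have h2 : v.1 % 4 = p.1 ∨ v.1 % 4 = q.1 := by
      rcases h1 with h | h
      · exact Or.inl (congrArg Fin.val h)
      · exact Or.inr (congrArg Fin.val h)
    have h3 : p.1 < q.1 := hpq
    have h4 := v.2
    by_cases hm : Even m
    · rw [if_pos hm] at hn
      rw [Nat.even_iff] at hm
      split_ifs <;> omega
    · rw [if_neg hm] at hn
      rw [Nat.not_even_iff_odd, Nat.odd_iff] at hm
      split_ifs <;> omega
  have h1 : S.ncard ≤ (Set.Iio m).ncard := by
    refine Set.ncard_le_ncard_of_injOn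
      (fun v => 2 * (v.1 / 4) + (if v.1 % 4 = q.1 then 1 else 0)) (fun v hv => hb v hv) ?_
      (Set.finite_Iio m)
    intro u hu v hv huv
    have h1 := hS u hu
    have h2 := hS v hv
    have h3 : u.1 % 4 = p.1 ∨ u.1 % 4 = q.1 := by
      rcases h1 with h | h
      · exact Or.inl (congrArg Fin.val h)
      · exact Or.inr (congrArg Fin.val h)
    have h4 : v.1 % 4 = p.1 ∨ v.1 % 4 = q.1 := by
      rcases h2 with h | h
      · exact Or.inl (congrArg Fin.val h)
      · exact Or.inr (congrArg Fin.val h)
    have h5 : p.1 < q.1 := hpq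
    simp only at huv
    apply Fin.ext
    by_cases c1 : u.1 % 4 = q.1 <;> by_cases c2 : v.1 % 4 = q.1 <;> simp only [c1, c2] at huv <;>
      simp only [if_true, if_false] at huv <;> omega
  rw [Set.ncard_Iio_nat] at h1
  exact h1

lemma no_mono (m n : ℕ) (hn : n < if Even m then 2 * m + 1 else 2 * m)
    (H : (⊤ : SimpleGraph (Fin n)).Subgraph) (hH : IsTreeCopy m H) (i : Fin 3)
    (hi : ∀ e ∈ H.edgeSet, col3 n e = i) : False := by
  obtain ⟨hT, hc⟩ := hH
  have hne : H.verts.Nonempty := by
    apply Set.nonempty_of_ncard_ne_zero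
    omega
  obtain ⟨w, hw⟩ := hne
  have hall : ∀ v : H.verts, cl v.1 = cl w ∨ cl v.1 = sg i (cl w) := by
    intro v
    obtain ⟨p⟩ := hT.connected.preconnected ⟨w, hw⟩ v
    have : ∀ (u v : H.verts), H.coe.Walk u v → (cl u.1 = cl w ∨ cl u.1 = sg i (cl w)) →
        (cl v.1 = cl w ∨ cl v.1 = sg i (cl w)) := by
      intro u v p
      induction p with
      | nil => exact fun h => h
      | @cons u v' _ hadj p ih =>
        intro h
        apply ih
        have h1 : col3 n s(u.1, v'.1) = i := hi _ hadj
        have h2 : f (cl u.1) (cl v'.1) = i := h1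
        have h3 := f_sg (cl u.1) (cl v'.1)
        rw [h2] at h3
        rcases h3 with h3 | h3
        · rw [h3]; exact h
        · rcases h with h | h
          · rw [h3, h]; exact Or.inr rfl
          · rw [h3, h, sg_sg]; exact Or.inl rfl
    exact this _ _ p (Or.inl rfl)
  have hle : H.verts.ncard ≤ m := by
    rcases lt_or_gt_of_ne (sg_ne i (cl w)) with h | h
    · exact two_classes m n hn _ _ h _ (fun v hv => (hall ⟨v, hv⟩).symm)
    · exact two_classes m n hn _ _ h _ (fun v hv => hall ⟨v, hv⟩)
  omega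

lemma mono_ge (m n : ℕ) (hn : n ∈ MonoSet m 3) : (if Even m then 2 * m + 1 else 2 * m) ≤ n := by
  by_contra hcon
  obtain ⟨H, hH, i, hi⟩ := hn (col3 n)
  exact no_mono m n (not_le.1 hcon) H hH i hi

lemma mixed_sub (m : ℕ) (hm : 1 ≤ m) : MixedSet m ⊆ MonoSet m 3 := by
  have : NeZero m := ⟨by omega⟩
  intro n hn c
  rcases hn (fun e => if c e = 0 then none else if c e = 1 then some 0 else some 1) with h | h
  · obtain ⟨H, hH, h1⟩ := h
    refine ⟨H, hH, 0, fun e he => ?_⟩
    have := h1 e he
    by_contra h2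
    simp only [h2, if_false] at this
    split_ifs at this
  · obtain ⟨H, hH, h1, h2⟩ := h
    have hne : ∀ e ∈ H.edgeSet, c e ≠ 0 := by
      intro e he h
      exact h1 e he (by simp [h])
    have hfin : H.edgeSet.Finite := Set.toFinite _
    have hcard : H.edgeSet.ncard = m := by
      have h3 := (SimpleGraph.isTree_iff_connected_and_card.1 hH.1).2
      have h4 : Nat.card H.verts = m + 1 := hH.2
      rw [h4] at h3
      have h5 : Nat.card H.coe.edgeSet = H.edgeSet.ncard := by
        rw [← SimpleGraph.Subgraph.image_coe_edgeSet_coe, Set.ncard_image_of_injective _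
          (Sym2.map.injective Subtype.val_injective)]
        rfl
      omega
    set E2 := {e ∈ H.edgeSet | ¬ c e = 1} with hE2
    have hsum : (∑ᶠ e ∈ H.edgeSet, ((if c e = 0 then none else if c e = 1 then some 0
        else some 1 : Option (ZMod m)).getD 0)) = (E2.ncard : ZMod m) := by
      have e1 : ∀ e ∈ H.edgeSet, ((if c e = 0 then none else if c e = 1 then some 0
          else some 1 : Option (ZMod m)).getD 0) = if c e = 1 then (0 : ZMod m) else 1 := by
        intro e he
        rw [if_neg (hne e he)]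
        split_ifs <;> rfl
      rw [finsum_mem_congr rfl e1, ← hfin.coe_toFinset, finsum_mem_coe_finset]
      have e2 : E2 = ((hfin.toFinset.filter fun e => ¬ c e = 1 : Finset (Sym2 (Fin n))) :
          Set (Sym2 (Fin n))) := by
        ext e; simp [hE2]
      rw [e2, Set.ncard_coe_finset, Finset.card_filter]
      push_cast
      refine Finset.sum_congr rfl fun e _ => ?_
      by_cases h : c e = 1 <;> simp [h]
    rw [hsum] at h2
    have hdvd : m ∣ E2.ncard := (ZMod.natCast_eq_zero_iff _ _).1 h2
    have hle : E2.ncard ≤ m := by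
      rw [← hcard]
      exact Set.ncard_le_ncard (fun e he => he.1) hfin
    have h01 : E2.ncard = 0 ∨ E2.ncard = m := by
      obtain ⟨q, hq⟩ := hdvd
      rcases Nat.eq_zero_or_pos q with h | h
      · left; rw [hq, h, mul_zero]
      · right
        have : m * 1 ≤ m * q := Nat.mul_le_mul_left _ h
        omega
    rcases h01 with h | h
    · refine ⟨H, hH, 1, fun e he => ?_⟩
      by_contra h3
      rw [Set.ncard_eq_zero (hfin.subset fun e he => he.1)] at h
      have : e ∈ E2 := ⟨he, h3⟩
      rw [h] at this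
      exact this
    · refine ⟨H, hH, 2, fun e he => ?_⟩
      have h3 : E2 = H.edgeSet := Set.eq_of_subset_of_ncard_le (fun e he => he.1)
        (by rw [hcard, h]) hfin
      have h4 : e ∈ E2 := by rw [h3]; exact he
      have h5 := hne e he
      have h6 := h4.2
      exact (by decide : ∀ x : Fin 3, x ≠ 0 → ¬ x = 1 → x = 2) _ h5 h6

/-- For every `m ≥ 1` the two Ramsey numbers are equal; both are `2 m + 1` for even `m` and `2 m`
for odd `m`. -/
theorem result : ∀ m : ℕ, 1 ≤ m →
    IsLeast (MonoSet m 3) (if Even m then 2 * m + 1 else 2 * m) ∧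
    IsLeast (MixedSet m) (if Even m then 2 * m + 1 else 2 * m) ∧
    sInf (MonoSet m 3) = sInf (MixedSet m) := by
  intro m hm
  have h1 : IsLeast (MonoSet m 3) (if Even m then 2 * m + 1 else 2 * m) :=
    ⟨mixed_sub m hm (mixed m hm), fun n hn => mono_ge m n hn⟩
  have h2 : IsLeast (MixedSet m) (if Even m then 2 * m + 1 else 2 * m) :=
    ⟨mixed m hm, fun n hn => mono_ge m n (mixed_sub m hm hn)⟩
  exact ⟨h1, h2, by rw [h1.csInf_eq, h2.csInf_eq]⟩

end Pool.Agent.Results.MP_b57ceb_co.MixedEquality
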